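import Pool.Agent.H370R2.Dyadic

/-!
The asymptotic formula for the number of zeros up to height `T`.
-/

open Complex Filter Topology

namespace Pool.Agent.W54.TCF

open H370

lemma NN_zero_add {A X : ℝ} (hA : 1 ≤ A) (hAX : A ≤ X) :
    NN riemannZeta 0 X = NN riemannZeta 0 A + NN riemannZeta A X := by
  unfold NN
  rw [← finsum_mem_union]
  · have hset : zset riemannZeta 0 X = zset riemannZeta 0 A ∪ zset riemannZeta A X := by
      ext s
      simp only [zset, Set.mem_ofPred_eq, Set.mem_union]
      constructor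
      · rintro ⟨a1, a2, a3, a4, a5⟩
        rcases le_or_gt s.im A with h1 | h1
        · exact Or.inl ⟨a1, a2, a3, h1, a5⟩
        · exact Or.inr ⟨a1, a2, h1, a4, a5⟩
      · rintro (⟨a1, a2, a3, a4, a5⟩ | ⟨a1, a2, a3, a4, a5⟩)
        · exact ⟨a1, a2, a3, a4.trans hAX, a5⟩
        · exact ⟨a1, a2, by linarith, a4, a5⟩
    rw [hset]
  · rw [Set.disjoint_left]
    rintro s ⟨a1, a2, a3, a4, a5⟩ ⟨b1, b2, b3, b4, b5⟩
    linarith
  · exact zeta_zeros_finite A
  · exact zset_finite good_zeta A X hA

/-- `N(T) = T log T / 2π + O(T)` -/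
theorem NT_asymp : ∃ C T0 : ℝ, 0 < C ∧ 10 ≤ T0 ∧ ∀ T : ℝ, T0 ≤ T →
    |(NN riemannZeta 0 T : ℝ) - T * Real.log T / (2 * Real.pi)| ≤ C * T := by
  obtain ⟨C, T0, hC, hT0, h⟩ := nn_asymp good_zeta
  have hpi := Real.pi_gt_three
  set f : ℝ → ℝ := fun T => (NN riemannZeta 0 T : ℝ) with hf
  set K : ℝ := f (2 * T0) + 2 * T0 * Real.log (2 * T0) with hK
  have hf0 : ∀ T, 0 ≤ f T := fun T => Nat.cast_nonneg _
  have hlog0 : 0 ≤ Real.log (2 * T0) := Real.log_nonneg (by linarith)
  have hK0 : 0 ≤ K := by
    have := hf0 (2 * T0)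
    positivity
  have hstep : ∀ V : ℝ, T0 ≤ V → |f (2 * V) - 2 * V * Real.log (2 * V) / (2 * Real.pi)| ≤
      |f V - V * Real.log V / (2 * Real.pi)| + (C + 1) * V := by
    intro V hV
    have hV0 : 0 < V := by linarith
    have h1 := h V hV V (2 * V) le_rfl (by linarith) (by linarith) le_rfl
    have h2 : f (2 * V) = f V + NN riemannZeta V (2 * V) := by
      have := NN_zero_add (A := V) (X := 2 * V) (by linarith) (by linarith)
      simp only [hf]
      rw [this]
      push_cast
      ring
    have h3 : Real.log (2 * V) = Real.log 2 + Real.log V := Real.log_mul (by norm_num) hV0.ne'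
    have h4 : f (2 * V) - 2 * V * Real.log (2 * V) / (2 * Real.pi) =
        (f V - V * Real.log V / (2 * Real.pi)) +
        ((NN riemannZeta V (2 * V) : ℝ) - V * Real.log V / (2 * Real.pi)) +
        (-(2 * V * Real.log 2 / (2 * Real.pi))) := by
      rw [h2, h3]
      field_simp
      ring
    rw [h4]
    have h5 : |-(2 * V * Real.log 2 / (2 * Real.pi))| ≤ V := by
      have h6 : 0 < Real.log 2 := Real.log_pos (by norm_num)
      rw [abs_neg, abs_of_nonneg (by positivity), div_le_iff₀ (by positivity)]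
      have h7 := Real.log_two_lt_d9
      nlinarith
    calc _ ≤ |(f V - V * Real.log V / (2 * Real.pi)) +
        ((NN riemannZeta V (2 * V) : ℝ) - V * Real.log V / (2 * Real.pi))| + _ := abs_add_le _ _
      _ ≤ (|f V - V * Real.log V / (2 * Real.pi)| +
        |(NN riemannZeta V (2 * V) : ℝ) - V * Real.log V / (2 * Real.pi)|) + _ := by
          gcongr
          exact abs_add_le _ _
      _ ≤ _ := by linarith
  have key : ∀ k : ℕ, ∀ T : ℝ, T0 ≤ T → T ≤ 2 ^ (k + 1) * T0 →
      |f T - T * Real.log T / (2 * Real.pi)| ≤ (C + 1 + K) * T := by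
    intro k
    induction k with
    | zero =>
      intro T h1 h2
      have h2' : T ≤ 2 * T0 := by simpa using h2
      have hT : 0 < T := by linarith
      have h3 : f T ≤ f (2 * T0) := by
        simp only [hf]
        have h4 := NN_zero_add (A := T) (X := 2 * T0) (by linarith) h2'
        rw [h4]
        push_cast
        have : (0 : ℝ) ≤ NN riemannZeta T (2 * T0) := Nat.cast_nonneg _
        linarith
      have h5 : 0 ≤ T * Real.log T / (2 * Real.pi) := by
        have := Real.log_nonneg (show 1 ≤ T by linarith)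
        positivity
      have h6 : T * Real.log T / (2 * Real.pi) ≤ 2 * T0 * Real.log (2 * T0) := by
        have h7 : Real.log T ≤ Real.log (2 * T0) := Real.log_le_log hT h2'
        have h8 := Real.log_nonneg (show 1 ≤ T by linarith)
        have h9 : T * Real.log T ≤ 2 * T0 * Real.log (2 * T0) := by gcongr
        refine (div_le_self (by positivity) (by linarith)).trans h9
      have h10 := hf0 T
      have h11 : |f T - T * Real.log T / (2 * Real.pi)| ≤ K := by
        rw [abs_le]
        constructor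
        · have := hf0 (2 * T0)
          linarith
        · linarith [mul_nonneg (show 0 ≤ 2 * T0 by linarith) hlog0]
      refine h11.trans ?_
      nlinarith
    | succ k ih =>
      intro T h1 h2
      rcases le_or_gt T (2 ^ (k + 1) * T0) with h3 | h3
      · exact ih T h1 h3
      · have hV : T0 ≤ T / 2 := by
          have : (2 : ℝ) ≤ 2 ^ (k + 1) := by
            calc (2 : ℝ) = 2 ^ 1 := by norm_num
              _ ≤ _ := pow_le_pow_right₀ (by norm_num) (by omega)
          nlinarith
        have hV2 : T / 2 ≤ 2 ^ (k + 1) * T0 := by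
          rw [pow_succ] at h2
          linarith
        have h4 := ih (T / 2) hV hV2
        have h5 := hstep (T / 2) hV
        rw [show 2 * (T / 2) = T by ring] at h5
        refine h5.trans ?_
        nlinarith
  refine ⟨C + 1 + K, T0, by positivity, hT0, fun T hT => ?_⟩
  obtain ⟨k, hk⟩ := pow_unbounded_of_one_lt (T / T0) (show (1 : ℝ) < 2 by norm_num)
  refine key k T hT ?_
  rw [div_lt_iff₀ (by linarith)] at hk
  have : (2 : ℝ) ^ k * T0 ≤ 2 ^ (k + 1) * T0 := by
    rw [pow_succ]
    have : (0 : ℝ) < 2 ^ k := by positivity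
    nlinarith
  linarith

/-- `N(T) ~ (T / 2π) log T` -/
theorem NT_asymp' (ε : ℝ) (hε : 0 < ε) : ∃ T0 : ℝ, 10 ≤ T0 ∧ ∀ T : ℝ, T0 ≤ T →
    (1 - ε) * (T / (2 * Real.pi) * Real.log T) ≤ (NN riemannZeta 0 T : ℝ) ∧
    (NN riemannZeta 0 T : ℝ) ≤ (1 + ε) * (T / (2 * Real.pi) * Real.log T) := by
  obtain ⟨C, T0, hC, hT0, h⟩ := NT_asymp
  have h1 : ∀ᶠ T : ℝ in atTop, C * (2 * Real.pi) / ε ≤ Real.log T :=
    Real.tendsto_log_atTop.eventually_ge_atTop _
  obtain ⟨T1, hT1⟩ := h1.exists_forall_of_atTop
  refine ⟨max T0 T1, hT0.trans (le_max_left _ _), fun T hT => ?_⟩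
  have hTa : T0 ≤ T := (le_max_left _ _).trans hT
  have hTb := hT1 T ((le_max_right _ _).trans hT)
  have h2 := abs_le.mp (h T hTa)
  have hpi := Real.pi_pos
  rw [div_le_iff₀ hε] at hTb
  have hTp : 0 < T := by linarith
  have h3 : C * T ≤ ε * (T / (2 * Real.pi) * Real.log T) := by
    have : ε * (T / (2 * Real.pi) * Real.log T) = T * (Real.log T * ε) / (2 * Real.pi) := by
      field_simp
    rw [this, le_div_iff₀ (by positivity)]
    nlinarith
  have h4 : T / (2 * Real.pi) * Real.log T = T * Real.log T / (2 * Real.pi) := by ring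
  rw [← h4] at h2
  constructor <;> linarith [h2.1, h2.2]

end Pool.Agent.W54.TCF
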