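import Mathlib

/-!
The multiplicity of a real zero of Hardy's function through derivatives equals the multiplicity of
the corresponding zero of zeta.
-/

open Complex Filter Topology

namespace Pool.Agent.W54.TCF

/-- the phase `exp (i ϑ(t))`, with `ϑ(t) = arg Γ(1/4 + i t / 2) - (t / 2) log π` -/
noncomputable def phase (t : ℝ) : ℂ :=
  Gamma (1 / 4 + I * t / 2) / ‖Gamma (1 / 4 + I * t / 2)‖ * cexp (-(I * (t / 2) * Real.log Real.pi))

/-- Hardy's function `Z(t) = exp (i ϑ(t)) ζ(1/2 + i t)` -/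
noncomputable def Z (t : ℝ) : ℂ := phase t * riemannZeta (1 / 2 + I * t)

/-- multiplicity of a real zero -/
noncomputable def mlt (t : ℝ) : ℕ := sInf {m : ℕ | 1 ≤ m ∧ iteratedDeriv m Z t ≠ 0}

lemma gamma_ne (t : ℝ) : Gamma (1 / 4 + I * t / 2) ≠ 0 := by
  apply Gamma_ne_zero_of_re_pos
  simp

lemma phase_ne (t : ℝ) : phase t ≠ 0 := by
  unfold phase
  refine mul_ne_zero (div_ne_zero (gamma_ne t) ?_) (Complex.exp_ne_zero _)
  rw [Complex.ofReal_ne_zero]
  exact norm_ne_zero_iff.mpr (gamma_ne t)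

lemma Z_zero_iff (t : ℝ) : Z t = 0 ↔ riemannZeta (1 / 2 + I * t) = 0 := by
  unfold Z
  rw [mul_eq_zero]
  exact ⟨fun h => h.resolve_left (phase_ne t), Or.inr⟩

/-- composition of a complex analytic function with an affine map of a real variable -/
lemma comp_affine {f : ℂ → ℂ} {a b : ℂ} {t : ℝ} (hf : AnalyticAt ℂ f (a + b * t)) :
    AnalyticAt ℝ (fun u : ℝ => f (a + b * u)) t := by
  have h1 : AnalyticAt ℝ f (a + b * t) := hf.restrictScalars
  have h2 : AnalyticAt ℝ (fun u : ℝ => (a + b * u : ℂ)) t := by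
    have h3 : AnalyticAt ℝ (fun u : ℝ => (u : ℂ)) t := Complex.ofRealCLM.analyticAt t
    exact analyticAt_const.add (analyticAt_const.mul h3)
  exact AnalyticAt.fun_comp (g := f) h1 h2

lemma norm_analytic {f : ℝ → ℂ} {t : ℝ} (hf : AnalyticAt ℝ f t) (h0 : f t ≠ 0) :
    AnalyticAt ℝ (fun u => (‖f u‖ : ℂ)) t := by
  have hre : AnalyticAt ℝ (fun u => (f u).re) t :=
    AnalyticAt.fun_comp (g := Complex.re) (Complex.reCLM.analyticAt _) hf
  have him : AnalyticAt ℝ (fun u => (f u).im) t :=
    AnalyticAt.fun_comp (g := Complex.im) (Complex.imCLM.analyticAt _) hf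
  have hsq : AnalyticAt ℝ (fun u => (f u).re * (f u).re + (f u).im * (f u).im) t :=
    (hre.mul hre).add (him.mul him)
  have hpos : 0 < (f t).re * (f t).re + (f t).im * (f t).im := by
    rw [← Complex.normSq_apply]
    exact Complex.normSq_pos.mpr h0
  have hlog := AnalyticAt.log hsq hpos
  have hexp : AnalyticAt ℝ (fun u => Real.exp ((1 / 2) *
      Real.log ((f u).re * (f u).re + (f u).im * (f u).im))) t :=
    AnalyticAt.rexp' (analyticAt_const.mul hlog)
  have h1 : AnalyticAt ℝ (fun u => ((Real.exp ((1 / 2) *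
      Real.log ((f u).re * (f u).re + (f u).im * (f u).im)) : ℝ) : ℂ)) t :=
    AnalyticAt.fun_comp (g := fun x : ℝ => (x : ℂ)) (Complex.ofRealCLM.analyticAt _) hexp
  refine h1.congr ?_
  have hev : ∀ᶠ u in 𝓝 t, f u ≠ 0 := hf.continuousAt.eventually_ne h0
  filter_upwards [hev] with u hu
  have hpos : 0 < (f u).re * (f u).re + (f u).im * (f u).im := by
    rw [← Complex.normSq_apply]
    exact Complex.normSq_pos.mpr hu
  congr 1
  rw [Complex.norm_def, Complex.normSq_apply, Real.sqrt_eq_rpow, Real.rpow_def_of_pos hpos]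
  rw [mul_comm]

lemma phase_analytic (t : ℝ) : AnalyticAt ℝ phase t := by
  have hG : AnalyticAt ℂ Gamma (1 / 4 + (I / 2) * t) := by
    have hd : DifferentiableOn ℂ Gamma {s : ℂ | 0 < s.re} := by
      intro s hs
      refine (differentiableAt_Gamma _ fun m hm => ?_).differentiableWithinAt
      have := congrArg Complex.re hm
      simp at this
      have hm0 : (0 : ℝ) ≤ m := Nat.cast_nonneg m
      have hs' : 0 < s.re := hs
      linarith
    have ho : IsOpen {s : ℂ | 0 < s.re} := isOpen_lt continuous_const Complex.continuous_re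
    refine hd.analyticAt (ho.mem_nhds ?_)
    show 0 < (1 / 4 + (I / 2) * t : ℂ).re
    simp
  have h1 : AnalyticAt ℝ (fun u : ℝ => Gamma (1 / 4 + (I / 2) * u)) t := comp_affine hG
  have e1 : (fun u : ℝ => Gamma (1 / 4 + (I / 2) * u)) = fun u : ℝ => Gamma (1 / 4 + I * u / 2) := by
    funext u
    congr 1
    ring
  rw [e1] at h1
  have h2 := norm_analytic h1 (gamma_ne t)
  have h3 : AnalyticAt ℝ (fun u : ℝ => cexp (0 + (-(I * (1 / 2) * Real.log Real.pi)) * u)) t :=
    comp_affine analyticAt_cexp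
  have e3 : (fun u : ℝ => cexp (0 + (-(I * (1 / 2) * Real.log Real.pi)) * u)) =
      fun u : ℝ => cexp (-(I * (u / 2) * Real.log Real.pi)) := by
    funext u
    congr 1
    ring
  rw [e3] at h3
  refine (h1.div h2 ?_).mul h3
  rw [Complex.ofReal_ne_zero]
  exact norm_ne_zero_iff.mpr (gamma_ne t)

lemma zeta_analytic {s : ℂ} (hs : s ≠ 1) : AnalyticAt ℂ riemannZeta s := by
  have : DifferentiableOn ℂ riemannZeta ({1}ᶜ : Set ℂ) := fun z hz =>
    (differentiableAt_riemannZeta hz).differentiableWithinAt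
  exact this.analyticAt (isOpen_compl_singleton.mem_nhds hs)

lemma half_ne (t : ℝ) : (1 / 2 + I * t : ℂ) ≠ 1 := by
  intro h
  have := congrArg Complex.re h
  norm_num at this

lemma Z_analytic (t : ℝ) : AnalyticAt ℝ Z t := by
  have h1 : AnalyticAt ℝ (fun u : ℝ => riemannZeta (1 / 2 + I * u)) t :=
    comp_affine (zeta_analytic (half_ne t))
  exact (phase_analytic t).mul h1

/-- the real order of `Z` is the complex order of `ζ` -/
lemma order_eq (t : ℝ) (h : analyticOrderAt riemannZeta (1 / 2 + I * t) ≠ ⊤) :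
    analyticOrderAt Z t = analyticOrderAt riemannZeta (1 / 2 + I * t) := by
  obtain ⟨n, hn⟩ := ENat.ne_top_iff_exists.mp h
  rw [← hn]
  have ha := zeta_analytic (half_ne t)
  obtain ⟨g, hg, hg0, hev⟩ := ha.analyticOrderAt_eq_natCast.mp hn.symm
  rw [(Z_analytic t).analyticOrderAt_eq_natCast]
  refine ⟨fun u => I ^ n * (phase u * g (1 / 2 + I * u)), ?_, ?_, ?_⟩
  · exact analyticAt_const.mul ((phase_analytic t).mul (comp_affine hg))
  · exact mul_ne_zero (pow_ne_zero _ I_ne_zero) (mul_ne_zero (phase_ne t) hg0)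
  · have hc : Tendsto (fun u : ℝ => (1 / 2 + I * u : ℂ)) (𝓝 t) (𝓝 (1 / 2 + I * t)) := by
      apply Continuous.tendsto
      fun_prop
    filter_upwards [hc.eventually hev] with u hu
    unfold Z
    rw [hu]
    simp only [smul_eq_mul, Complex.real_smul]
    have : (1 / 2 + I * u - (1 / 2 + I * t) : ℂ) = I * (u - t) := by ring
    rw [this, mul_pow]
    push_cast
    ring

/-- the multiplicity defined by derivatives equals the multiplicity of the zero of zeta -/
theorem mlt_eq (t : ℝ) (h0 : Z t = 0) (h : analyticOrderAt riemannZeta (1 / 2 + I * t) ≠ ⊤) :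
    mlt t = analyticOrderNatAt riemannZeta (1 / 2 + I * t) := by
  have h1 := order_eq t h
  obtain ⟨n, hn⟩ := ENat.ne_top_iff_exists.mp h
  have hN : analyticOrderNatAt riemannZeta (1 / 2 + I * t) = n := by
    unfold analyticOrderNatAt
    rw [← hn]
    rfl
  rw [hN]
  have hZ : analyticOrderAt Z t = n := by rw [h1, hn]
  have hle : ∀ i < n, iteratedDeriv i Z t = 0 := by
    rw [← natCast_le_analyticOrderAt_iff_iteratedDeriv_eq_zero (Z_analytic t), hZ]
  have hnn : iteratedDeriv n Z t ≠ 0 := by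
    intro hcon
    have h2 : ∀ i < n + 1, iteratedDeriv i Z t = 0 := by
      intro i hi
      rcases Nat.lt_succ_iff_lt_or_eq.mp hi with h3 | h3
      · exact hle i h3
      · rw [h3]; exact hcon
    rw [← natCast_le_analyticOrderAt_iff_iteratedDeriv_eq_zero (Z_analytic t), hZ] at h2
    have : n + 1 ≤ n := by exact_mod_cast h2
    omega
  have hn1 : 1 ≤ n := by
    by_contra hcon
    have : n = 0 := by omega
    rw [this, iteratedDeriv_zero] at hnn
    exact hnn h0
  unfold mlt
  apply le_antisymm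
  · exact Nat.sInf_le ⟨hn1, hnn⟩
  · refine le_csInf ⟨n, hn1, hnn⟩ ?_
    rintro m ⟨_, hm⟩
    by_contra hcon
    exact hm (hle m (by omega))

end Pool.Agent.W54.TCF
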