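import Pool.Agent.W198.TC.Main
import Pool.Agent.W54.TCF.ZMult
import Pool.Agent.W54.TCF.NT

open Complex Filter Topology Set

namespace Pool.Agent.W54.TCF

/-- the zeros of `Z` in `(0, T]` -/
def ZZ (T : ℝ) : Set ℝ := {t : ℝ | 0 < t ∧ t ≤ T ∧ Z t = 0}

lemma mu_eq (t : ℝ) : TC.mu t = analyticOrderNatAt riemannZeta (1 / 2 + I * t) := by
  unfold TC.mu H370.mult
  rw [mul_comm]

lemma mem_ordT' (hRH : RiemannHypothesis) {T t : ℝ} : t ∈ TC.ordT T ↔ t ∈ ZZ T := by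
  unfold TC.ordT ZZ
  rw [Finset.mem_image]
  constructor
  · rintro ⟨s, hs, rfl⟩
    rw [TC.GlobAux.mem_Z0] at hs
    obtain ⟨h1, h2, h3, h4, h5⟩ := hs
    refine ⟨h3, h4, ?_⟩
    rw [Z_zero_iff]
    have := TC.GlobAux.eq_half hRH h1 h2 h5
    rw [mul_comm, this]
    exact h5
  · rintro ⟨h1, h2, h3⟩
    rw [Z_zero_iff] at h3
    refine ⟨1 / 2 + I * t, ?_, by simp⟩
    rw [TC.GlobAux.mem_Z0]
    refine ⟨by simp, by simp; norm_num, by simpa using h1, by simpa using h2, h3⟩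

lemma order_ne_top {T t : ℝ} (ht : t ∈ ZZ T) :
    analyticOrderAt riemannZeta (1 / 2 + I * t) ≠ ⊤ := by
  intro h
  rw [analyticOrderAt_eq_top] at h
  have hfin := H370.zeta_zeros_finite (t + 1)
  have hs : (1 / 2 + I * t : ℂ) ∈ {s : ℂ | 0 < s.re ∧ s.re < 1 ∧ 0 < s.im ∧ s.im < t + 1} := by
    obtain ⟨h1, h2, h3⟩ := ht
    refine ⟨by simp, by simp; norm_num, by simpa using h1, by simp⟩
  have hopen : IsOpen {s : ℂ | 0 < s.re ∧ s.re < 1 ∧ 0 < s.im ∧ s.im < t + 1} := by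
    have c1 : Continuous Complex.re := Complex.continuous_re
    have c2 : Continuous Complex.im := Complex.continuous_im
    exact (isOpen_lt continuous_const c1).inter ((isOpen_lt c1 continuous_const).inter
      ((isOpen_lt continuous_const c2).inter (isOpen_lt c2 continuous_const)))
  have h2 : ∀ᶠ s in 𝓝 (1 / 2 + I * t : ℂ), s ∈ H370.zset riemannZeta 0 (t + 1) := by
    filter_upwards [h, hopen.mem_nhds hs] with s h3 h4
    exact ⟨h4.1, h4.2.1, h4.2.2.1, h4.2.2.2.le, h3⟩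
  have h3 : (H370.zset riemannZeta 0 (t + 1)) ∈ 𝓝 (1 / 2 + I * t : ℂ) := h2
  exact hfin.not_infinite (infinite_of_mem_nhds _ h3)

lemma mlt_eq_mu {T t : ℝ} (ht : t ∈ ZZ T) : mlt t = TC.mu t := by
  rw [mu_eq]
  exact mlt_eq t ht.2.2 (order_ne_top ht)

lemma kk_zero {T t : ℝ} (ht : t ∈ TC.ordT T) : TC.kk (TC.ordT T) TC.mu 0 t = TC.mu t := by
  unfold TC.kk
  have : (TC.ordT T).filter (fun g' => |g' - t| ≤ 0) = {t} := by
    ext g
    rw [Finset.mem_filter, Finset.mem_singleton, abs_nonpos_iff, sub_eq_zero]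
    constructor
    · exact fun h => h.2
    · rintro rfl
      exact ⟨ht, rfl⟩
  rw [this, Finset.sum_singleton]

lemma mu_pos {T t : ℝ} (ht : t ∈ ZZ T) : 1 ≤ TC.mu t := by
  rw [Nat.one_le_iff_ne_zero, mu_eq]
  intro h
  have h1 := order_ne_top ht
  have h2 : analyticOrderAt riemannZeta (1 / 2 + I * t) = 0 := by
    unfold analyticOrderNatAt at h
    rw [ENat.toNat_eq_zero] at h
    exact h.resolve_right h1
  have h3 := (zeta_analytic (half_ne t)).analyticOrderAt_eq_zero.mp h2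
  exact h3 ((Z_zero_iff t).mp ht.2.2)

lemma ZZ_finite (hRH : RiemannHypothesis) (T : ℝ) : (ZZ T).Finite := by
  have : ZZ T = ↑(TC.ordT T) := by
    ext t
    rw [Finset.mem_coe, mem_ordT' hRH]
  rw [this]
  exact Finset.finite_toSet _

/-- the sum of the multiplicities is `N(T)` -/
lemma sum_mu (hRH : RiemannHypothesis) (T : ℝ) :
    ∑ g ∈ TC.ordT T, (TC.mu g : ℝ) = (H370.NN riemannZeta 0 T : ℝ) := by
  unfold TC.ordT
  rw [TC.GlobAux.sum_im hRH _ (fun s hs => by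
    rw [TC.GlobAux.mem_Z0] at hs
    exact ⟨hs.1, hs.2.1, hs.2.2.2.2⟩)]
  unfold H370.NN H343.ZSide.Z0
  rw [finsum_mem_eq_finite_toFinset_sum _ (H370.zeta_zeros_finite T)]
  push_cast
  rfl

/-- the multiplicities of the real zeros of `Z` add up to `N(T)` -/
theorem sum_mlt (hRH : RiemannHypothesis) (T : ℝ) :
    ∑ᶠ t ∈ ZZ T, mlt t = H370.NN riemannZeta 0 T := by
  have h := sum_mu hRH T
  have h' : ∑ g ∈ TC.ordT T, TC.mu g = H370.NN riemannZeta 0 T := by exact_mod_cast h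
  rw [← h', finsum_mem_eq_finite_toFinset_sum _ (ZZ_finite hRH T)]
  apply Finset.sum_congr
  · ext t
    rw [Set.Finite.mem_toFinset, mem_ordT' hRH]
  · intro t ht
    rw [mlt_eq_mu ((mem_ordT' hRH).mp ht)]

lemma Qx_zero : TC.Qx 0 = 2809 / 3600 := by
  unfold TC.Qx
  norm_num

/-- the average multiplicity -/
theorem average (hRH : RiemannHypothesis) : ∃ T0 : ℝ, ∀ T : ℝ, T0 ≤ T →
    ∑ᶠ t ∈ ZZ T, (mlt t : ℝ) ^ 2 ≤ 1306 / 1000 * (H370.NN riemannZeta 0 T : ℝ) := by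
  obtain ⟨T1, h1⟩ := TC.close_pairs hRH 0 le_rfl (by norm_num) (by
    rw [Qx_zero]; unfold TC.vv TC.EE; norm_num) (1 / 100000) (by norm_num)
  obtain ⟨T2, hT2, h2⟩ := NT_asymp' (1 / 100000) (by norm_num)
  refine ⟨max (max T1 T2) 10, fun T hT => ?_⟩
  have hTa : T1 ≤ T := (le_max_left _ _).trans ((le_max_left _ _).trans hT)
  have hTb : T2 ≤ T := (le_max_right _ _).trans ((le_max_left _ _).trans hT)
  have hTc : 10 ≤ T := (le_max_right _ _).trans hT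
  have h3 := h1 T hTa 0 le_rfl (by simp)
  obtain ⟨h4, h5⟩ := h2 T hTb
  have e1 : ∑ᶠ t ∈ ZZ T, (mlt t : ℝ) ^ 2 = ∑ g ∈ TC.ordT T, (TC.mu g : ℝ) ^ 2 := by
    rw [finsum_mem_eq_finite_toFinset_sum _ (ZZ_finite hRH T)]
    apply Finset.sum_congr
    · ext t
      rw [Set.Finite.mem_toFinset, mem_ordT' hRH]
    · intro t ht
      rw [mlt_eq_mu ((mem_ordT' hRH).mp ht)]
  have e2 : ∑ g ∈ TC.ordT T, (TC.mu g : ℝ) ^ 2 = ∑ g ∈ TC.ordT T, (TC.mu g : ℝ) +
      ∑ g ∈ TC.ordT T, (TC.mu g : ℝ) * (((TC.kk (TC.ordT T) TC.mu 0 g - 1 : ℕ)) : ℝ) := by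
    rw [← Finset.sum_add_distrib]
    apply Finset.sum_congr rfl
    intro g hg
    rw [kk_zero hg, Nat.cast_sub (mu_pos ((mem_ordT' hRH).mp hg))]
    push_cast
    ring
  rw [e1, e2, sum_mu hRH]
  have hX : 0 ≤ T / (2 * Real.pi) * Real.log T := by
    have := Real.log_nonneg (show 1 ≤ T by linarith)
    have := Real.pi_pos
    positivity
  set X := T / (2 * Real.pi) * Real.log T with hXd
  have e3 : T * Real.log T / (2 * Real.pi) = X := by rw [hXd]; ring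
  rw [e3] at h3
  have h6 : TC.vv / (TC.vv + (2 * TC.Qx 0 - TC.EE) ^ 2) + 1 / 100000 ≤ 30592 / 100000 := by
    rw [Qx_zero]; unfold TC.vv TC.EE; norm_num
  have h7 : X * (TC.vv / (TC.vv + (2 * TC.Qx 0 - TC.EE) ^ 2) + 1 / 100000) ≤
      X * (30592 / 100000) := mul_le_mul_of_nonneg_left h6 hX
  have h8 := h3.trans h7
  nlinarith

/-- zeros of high multiplicity -/
theorem tail (hRH : RiemannHypothesis) (j : ℕ) (hj : 2 ≤ j) (ε : ℝ) (hε : 0 < ε) :
    ∃ T0 : ℝ, ∀ T : ℝ, T0 ≤ T →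
    ∑ᶠ t ∈ {t : ℝ | t ∈ ZZ T ∧ j ≤ mlt t}, (mlt t : ℝ) ≤
      (TC.vv / (TC.vv + (j * (2809 / 3600) - TC.EE) ^ 2) + ε) *
        (H370.NN riemannZeta 0 T : ℝ) := by
  have hj' : (2 : ℝ) ≤ j := by exact_mod_cast hj
  have hv := TC.vv_pos
  obtain ⟨T1, h1⟩ := TC.clusters hRH j 0 le_rfl (by norm_num) (by
    rw [Qx_zero]
    have : (2 : ℝ) * (2809 / 3600) ≤ j * (2809 / 3600) := by gcongr
    refine le_trans ?_ (sub_le_sub_right this _)
    unfold TC.vv TC.EE; norm_num) (ε / 4) (by positivity)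
  set η : ℝ := min (ε / 4) (1 / 4) with hη
  have hη0 : 0 < η := by rw [hη]; positivity
  have hη1 : η ≤ ε / 4 := min_le_left _ _
  have hη2 : η ≤ 1 / 4 := min_le_right _ _
  obtain ⟨T2, hT2, h2⟩ := NT_asymp' η hη0
  refine ⟨max (max T1 T2) 10, fun T hT => ?_⟩
  have hTa : T1 ≤ T := (le_max_left _ _).trans ((le_max_left _ _).trans hT)
  have hTb : T2 ≤ T := (le_max_right _ _).trans ((le_max_left _ _).trans hT)
  have hTc : 10 ≤ T := (le_max_right _ _).trans hT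
  have h3 := h1 T hTa 0 le_rfl (by simp)
  obtain ⟨h4, h5⟩ := h2 T hTb
  have hfin : {t : ℝ | t ∈ ZZ T ∧ j ≤ mlt t}.Finite := (ZZ_finite hRH T).subset fun _ h => h.1
  have e1 : ∑ᶠ t ∈ {t : ℝ | t ∈ ZZ T ∧ j ≤ mlt t}, (mlt t : ℝ) =
      ∑ g ∈ (TC.ordT T).filter (fun g => j ≤ TC.kk (TC.ordT T) TC.mu 0 g), (TC.mu g : ℝ) := by
    rw [finsum_mem_eq_finite_toFinset_sum _ hfin]
    apply Finset.sum_congr
    · ext t
      rw [Set.Finite.mem_toFinset, Finset.mem_filter, Set.mem_ofPred_eq, ← mem_ordT' hRH]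
      constructor
      · rintro ⟨a, b⟩
        refine ⟨a, ?_⟩
        rw [kk_zero a, ← mlt_eq_mu ((mem_ordT' hRH).mp a)]
        exact b
      · rintro ⟨a, b⟩
        refine ⟨a, ?_⟩
        rw [kk_zero a, ← mlt_eq_mu ((mem_ordT' hRH).mp a)] at b
        exact b
    · intro t ht
      rw [Finset.mem_filter] at ht
      rw [mlt_eq_mu ((mem_ordT' hRH).mp ht.1)]
  rw [e1]
  set X := T / (2 * Real.pi) * Real.log T with hXd
  have hX : 0 ≤ X := by
    have := Real.log_nonneg (show 1 ≤ T by linarith)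
    have := Real.pi_pos
    positivity
  have e3 : T * Real.log T / (2 * Real.pi) = X := by rw [hXd]; ring
  rw [e3, Qx_zero] at h3
  set q : ℝ := TC.vv / (TC.vv + (j * (2809 / 3600) - TC.EE) ^ 2) with hq
  have hq0 : 0 ≤ q := by positivity
  have hq1 : q ≤ 1 := by
    rw [hq]
    exact div_le_one_of_le₀ (le_add_of_nonneg_right (sq_nonneg _)) (by positivity)
  -- X (q + ε/4) ≤ (q + ε) (1 - η) X
  have h6 : X * (q + ε / 4) ≤ (q + ε) * ((1 - η) * X) := by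
    have h7 : q + ε / 4 ≤ (q + ε) * (1 - η) := by
      have a1 : η * q ≤ ε / 4 * 1 := mul_le_mul hη1 hq1 hq0 (by positivity)
      have a2 : η * ε ≤ 1 / 4 * ε := mul_le_mul_of_nonneg_right hη2 hε.le
      nlinarith
    calc X * (q + ε / 4) ≤ X * ((q + ε) * (1 - η)) := mul_le_mul_of_nonneg_left h7 hX
      _ = _ := by ring
  have h8 : (q + ε) * ((1 - η) * X) ≤ (q + ε) * (H370.NN riemannZeta 0 T : ℝ) :=
    mul_le_mul_of_nonneg_left h4 (by positivity)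
  exact h3.trans (h6.trans h8)

end Pool.Agent.W54.TCF
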